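import Pool.Agent.H442FD.Upper

/-! Asymptotic forms (MP_dbfdb2_gt; helper442). -/

open Metric Filter Set
open scoped Topology
open Pool.Agent.H818R2 Pool.Agent.TH220.NT

namespace Pool.Agent.H442FD

theorem choose_x (N m : ℕ) {x : ℝ} (hx : 0 < x) : (N.choose m : ℝ) * x ^ m ≤ (1 + x) ^ N := by
  rcases le_or_gt m N with h | h
  · rw [add_comm, add_pow]
    have h2 := Finset.single_le_sum (f := fun m => x ^ m * 1 ^ (N - m) * (N.choose m : ℝ))
      (s := Finset.range (N + 1)) (fun i _ => by positivity)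
      (Finset.mem_range.2 (Nat.lt_succ_of_le h))
    simp only [one_pow, mul_one] at h2 ⊢
    linarith [mul_comm (x ^ m) (N.choose m : ℝ)]
  · rw [Nat.choose_eq_zero_of_lt h]
    simp only [Nat.cast_zero, zero_mul]
    positivity

/-- Binomial coefficients `C(n + m + 1, m)`, `m ≤ μ n`, are at most `2 ^ (δ n) / 2`. -/
theorem choose_small {δ : ℝ} (hδ : 0 < δ) : ∃ μ : ℝ, 0 < μ ∧ μ ≤ 1 ∧ ∀ᶠ n : ℕ in atTop, ∀ m : ℕ,
    (m : ℝ) ≤ μ * n → 2 * ((n + m + 1).choose m : ℝ) ≤ (2 : ℝ) ^ (δ * n) := by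
  -- choose x
  have hx : ∃ x : ℝ, 0 < x ∧ x ≤ 1 ∧ (1 + x) ^ 3 ≤ (2 : ℝ) ^ (δ / 3) := by
    have h1 : Tendsto (fun x : ℝ => (1 + x) ^ 3) (𝓝[>] 0) (𝓝 ((1 + 0) ^ 3)) :=
      ((continuous_const.add continuous_id).pow 3).continuousAt.tendsto.mono_left
        nhdsWithin_le_nhds
    have h2 : ((1 : ℝ) + 0) ^ 3 < (2 : ℝ) ^ (δ / 3) := by
      norm_num
      exact Real.one_lt_rpow (by norm_num) (by positivity)
    have h3 := (h1.eventually (gt_mem_nhds h2)).and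
      ((eventually_mem_nhdsWithin (a := (0 : ℝ)) (s := Ioi 0)).and
        (nhdsWithin_le_nhds (gt_mem_nhds (show (0 : ℝ) < 1 by norm_num))))
    obtain ⟨x, h4, h5, h6⟩ := h3.exists
    exact ⟨x, h5, le_of_lt h6, h4.le⟩
  obtain ⟨x, hx0, hx1, hx3⟩ := hx
  -- choose μ
  have hμ : ∃ μ : ℝ, 0 < μ ∧ μ ≤ 1 ∧ (1 / x) ^ μ ≤ (2 : ℝ) ^ (δ / 3) := by
    have h1 : Tendsto (fun μ : ℝ => (1 / x) ^ μ) (𝓝[>] 0) (𝓝 ((1 / x) ^ (0 : ℝ))) :=
      (Real.continuous_const_rpow (by positivity)).continuousAt.tendsto.mono_left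
        nhdsWithin_le_nhds
    have h2 : (1 / x) ^ (0 : ℝ) < (2 : ℝ) ^ (δ / 3) := by
      rw [Real.rpow_zero]
      exact Real.one_lt_rpow (by norm_num) (by positivity)
    have h3 := (h1.eventually (gt_mem_nhds h2)).and
      ((eventually_mem_nhdsWithin (a := (0 : ℝ)) (s := Ioi 0)).and
        (nhdsWithin_le_nhds (gt_mem_nhds (show (0 : ℝ) < 1 by norm_num))))
    obtain ⟨μ, h4, h5, h6⟩ := h3.exists
    exact ⟨μ, h5, le_of_lt h6, h4.le⟩
  obtain ⟨μ, hμ0, hμ1, hμ2⟩ := hμ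
  refine ⟨μ, hμ0, hμ1, ?_⟩
  filter_upwards [eventually_ge_atTop ⌈3 / δ⌉₊, eventually_ge_atTop 1] with n hn hn1 m hm
  have hn1' : (1 : ℝ) ≤ n := by exact_mod_cast hn1
  have hn' : 3 / δ ≤ n := (Nat.le_ceil _).trans (by exact_mod_cast hn)
  have hn2 : 1 ≤ δ / 3 * n := by
    rw [div_le_iff₀ hδ] at hn'
    linarith
  have hmn : m ≤ n := by
    have : (m : ℝ) ≤ n := hm.trans (by nlinarith)
    exact_mod_cast this
  have hc := choose_x (n + m + 1) m hx0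
  have h1 : (1 + x) ^ (n + m + 1) ≤ (1 + x) ^ (3 * n) :=
    pow_le_pow_right₀ (by linarith) (by omega)
  have h2 : (1 + x) ^ (3 * n) ≤ (2 : ℝ) ^ (δ / 3 * n) := by
    rw [pow_mul, Real.rpow_mul (by norm_num), Real.rpow_natCast]
    exact pow_le_pow_left₀ (by positivity) hx3 n
  have h3 : (1 / x) ^ m ≤ (2 : ℝ) ^ (δ / 3 * n) := by
    calc (1 / x) ^ m = (1 / x) ^ (m : ℝ) := (Real.rpow_natCast _ _).symm
      _ ≤ (1 / x) ^ (μ * n) := Real.rpow_le_rpow_of_exponent_le (by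
          rw [le_div_iff₀ hx0]; linarith) hm
      _ = ((1 / x) ^ μ) ^ (n : ℝ) := Real.rpow_mul (by positivity) _ _
      _ ≤ ((2 : ℝ) ^ (δ / 3)) ^ (n : ℝ) :=
          Real.rpow_le_rpow (by positivity) hμ2 (by positivity)
      _ = (2 : ℝ) ^ (δ / 3 * n) := (Real.rpow_mul (by norm_num) _ _).symm
  have h4 : (2 : ℝ) ≤ (2 : ℝ) ^ (δ / 3 * n) := by
    calc (2 : ℝ) = (2 : ℝ) ^ (1 : ℝ) := (Real.rpow_one 2).symm
      _ ≤ _ := Real.rpow_le_rpow_of_exponent_le (by norm_num) hn2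
  have h5 : ((n + m + 1).choose m : ℝ) ≤ (2 : ℝ) ^ (δ / 3 * n) * (2 : ℝ) ^ (δ / 3 * n) := by
    have h6 : ((n + m + 1).choose m : ℝ) = ((n + m + 1).choose m : ℝ) * x ^ m * (1 / x) ^ m := by
      rw [mul_assoc, ← mul_pow, mul_one_div_cancel hx0.ne', one_pow, mul_one]
    rw [h6]
    exact mul_le_mul (hc.trans (h1.trans h2)) h3 (by positivity) (by positivity)
  calc 2 * ((n + m + 1).choose m : ℝ)
      ≤ (2 : ℝ) ^ (δ / 3 * n) * ((2 : ℝ) ^ (δ / 3 * n) * (2 : ℝ) ^ (δ / 3 * n)) :=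
        mul_le_mul h4 h5 (by positivity) (by positivity)
    _ = (2 : ℝ) ^ (δ * n) := by
        rw [← Real.rpow_add (by norm_num), ← Real.rpow_add (by norm_num)]
        congr 1
        ring

theorem pow_form {δ t : ℝ} (n : ℕ) : (2 : ℝ) ^ (δ * n) * (1 / t) ^ n = ((2 : ℝ) ^ δ / t) ^ n := by
  rw [Real.rpow_mul (by norm_num), Real.rpow_natCast, ← mul_pow]
  congr 1
  ring

/-- Linearly many distances are needed. -/
theorem few_asym {t δ : ℝ} (ht : 1 ≤ t) (hδ : 0 < δ) : ∃ σ : ℝ, 0 < σ ∧ ∀ᶠ n : ℕ in atTop,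
    ∀ (X : Set (EuclideanSpace ℝ (Fin n))) (r : ℝ) (s : ℕ), IsPacking X r → (s : ℝ) ≤ σ * n →
      upperDensity (fewDist X r t s) r ≤ ((2 : ℝ) ^ δ / t) ^ n := by
  obtain ⟨μ, hμ0, -, hμ⟩ := choose_small hδ
  refine ⟨μ, hμ0, ?_⟩
  filter_upwards [hμ] with n hn X r s hX hs
  have h1 := hn s hs
  rw [← pow_form]
  refine (few_dens hX ht).trans ?_
  apply mul_le_mul_of_nonneg_right _ (by positivity)
  have : (0 : ℝ) ≤ ((n + s + 1).choose s : ℝ) := Nat.cast_nonneg _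
  linarith

/-- Boundedly many narrow windows. -/
theorem windows_asym {t δ : ℝ} (ht : 1 ≤ t) (hδ : 0 < δ) (s : ℕ) : ∃ ε : ℝ, 0 < ε ∧
    ∀ᶠ n : ℕ in atTop, ∀ (X : Set (EuclideanSpace ℝ (Fin n))) (r : ℝ), IsPacking X r →
      upperDensity (fewWindows X r t s ε) r ≤ ((2 : ℝ) ^ δ / t) ^ n := by
  obtain ⟨μ, hμ0, -, hμ⟩ := choose_small hδ
  have hs1 : (0 : ℝ) < s + 1 := by positivity
  have ht0 : 0 < t := by linarith
  set A : ℝ := (2 : ℝ) ^ (-(δ * (s + 1) / μ)) with hA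
  have hA0 : 0 < A := by positivity
  set M : ℝ := t ^ (2 * (s - 1)) with hM
  have hM0 : 0 < M := by positivity
  obtain ⟨ε, hε0, hε⟩ : ∃ ε : ℝ, 0 < ε ∧ ((1 + ε) ^ 2 - 1) * M ≤ A := by
    refine ⟨min 1 (A / (3 * M)), by positivity, ?_⟩
    have h1 : min 1 (A / (3 * M)) ≤ 1 := min_le_left _ _
    have h2 : min 1 (A / (3 * M)) ≤ A / (3 * M) := min_le_right _ _
    have h3 : 0 < min 1 (A / (3 * M)) := by positivity
    set ε := min 1 (A / (3 * M))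
    calc ((1 + ε) ^ 2 - 1) * M ≤ (3 * ε) * M :=
          mul_le_mul_of_nonneg_right (by nlinarith) hM0.le
      _ ≤ (3 * (A / (3 * M))) * M :=
          mul_le_mul_of_nonneg_right (by linarith) hM0.le
      _ = A := by field_simp
  refine ⟨ε, hε0, ?_⟩
  filter_upwards [hμ, eventually_ge_atTop ⌈2 * (s + 1) / μ⌉₊] with n hn hn2 X r hX
  have hn2' : 2 * (s + 1) / μ ≤ n := (Nat.le_ceil _).trans (by exact_mod_cast hn2)
  rw [div_le_iff₀ hμ0] at hn2'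
  set k := ⌊μ * n / (s + 1)⌋₊ with hk
  have hk1 : (k : ℝ) ≤ μ * n / (s + 1) := Nat.floor_le (by positivity)
  have hk2 : μ * n / (s + 1) < k + 1 := Nat.lt_floor_add_one _
  have hk3 : μ * n / (2 * (s + 1)) ≤ k := by
    have h1 : 2 ≤ μ * n / (s + 1) := by
      rw [le_div_iff₀ hs1]; linarith
    have h2 : μ * n / (2 * (s + 1)) = (μ * n / (s + 1)) / 2 := by field_simp
    rw [h2]; linarith
  have hsk : ((s * k : ℕ) : ℝ) ≤ μ * n := by
    push_cast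
    rw [le_div_iff₀ hs1] at hk1
    have : (0 : ℝ) ≤ k := Nat.cast_nonneg _
    nlinarith
  have h1 := hn (s * k) hsk
  have hq0 : 0 ≤ ((1 + ε) ^ 2 - 1) * M := mul_nonneg (by nlinarith) hM0.le
  have h2 : (((1 + ε) ^ 2 - 1) * M) ^ (2 * k) ≤ (2 : ℝ) ^ (-(δ * n)) := by
    calc (((1 + ε) ^ 2 - 1) * M) ^ (2 * k) ≤ A ^ (2 * k) := pow_le_pow_left₀ hq0 hε _
      _ = (2 : ℝ) ^ (-(δ * (s + 1) / μ) * ((2 * k : ℕ) : ℝ)) := by
          rw [hA, ← Real.rpow_natCast, ← Real.rpow_mul (by norm_num)]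
      _ ≤ (2 : ℝ) ^ (-(δ * n)) := by
          apply Real.rpow_le_rpow_of_exponent_le (by norm_num)
          have h3 : δ * n = δ * (s + 1) / μ * (2 * (μ * n / (2 * (s + 1)))) := by
            field_simp
          rw [h3, neg_mul, neg_le_neg_iff]
          apply mul_le_mul_of_nonneg_left _ (by positivity)
          push_cast
          linarith
  rw [← pow_form]
  refine (windows_dens (k := k) hX ht hε0.le ?_).trans ?_
  · calc 2 * ((n + s * k + 1).choose (s * k) : ℝ) * (((1 + ε) ^ 2 - 1) * M) ^ (2 * k)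
        ≤ (2 : ℝ) ^ (δ * n) * (2 : ℝ) ^ (-(δ * n)) :=
          mul_le_mul h1 h2 (pow_nonneg hq0 _) (by positivity)
      _ = 1 := by
          rw [← Real.rpow_add (by norm_num), add_neg_cancel, Real.rpow_zero]
  · exact mul_le_mul_of_nonneg_right h1 (by positivity)

end Pool.Agent.H442FD
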