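import Mathlib

/-! Centres of a packing that see few distances (MP_dbfdb2_gt; helper442). -/

namespace Pool.Agent.H442FD

/-- The centres `x` of `X` which have at most `s` different distances less than `2 t r` to the
other centres of `X`. -/
def fewDist {n : ℕ} (X : Set (EuclideanSpace ℝ (Fin n))) (r t : ℝ) (s : ℕ) :
    Set (EuclideanSpace ℝ (Fin n)) :=
  {x ∈ X | {d | ∃ y ∈ X, y ≠ x ∧ dist x y = d ∧ d < 2 * t * r}.encard ≤ s}

/-- The centres `x` of `X` whose distances less than `2 t r` to the other centres of `X` lie in at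
most `s` windows `[a, (1 + ε) a]`. -/
def fewWindows {n : ℕ} (X : Set (EuclideanSpace ℝ (Fin n))) (r t : ℝ) (s : ℕ) (ε : ℝ) :
    Set (EuclideanSpace ℝ (Fin n)) :=
  {x ∈ X | ∃ a : Fin s → ℝ, ∀ y ∈ X, y ≠ x → dist x y < 2 * t * r →
    ∃ i, a i ≤ dist x y ∧ dist x y ≤ (1 + ε) * a i}

end Pool.Agent.H442FD
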