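import Pool.Agent.TH220.NT.Dens

/-! From local counts in balls of radius `t r` to upper densities (MP_dbfdb2_gt; helper442). -/

open MeasureTheory Metric Filter Set
open scoped Topology Pointwise
open Pool.Agent.H818R2 Pool.Agent.TH220.NT

namespace Pool.Agent.H442FD

section
variable {E : Type*} [NormedAddCommGroup E] [InnerProductSpace ℝ E] [FiniteDimensional ℝ E]
  [MeasurableSpace E] [BorelSpace E]

/-- Averaging over translates of a ball of radius `t`. -/
theorem translate_count {t : ℝ} (ht : 0 < t) {N : ℕ} {F : Finset E}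
    (hN : ∀ (z : E) (P : Finset E), P ⊆ F → (∀ x ∈ P, dist x z < t) → P.card ≤ N)
    {T : ℝ} (hT : 0 ≤ T) (hFT : ∀ x ∈ F, ‖x‖ ≤ T) :
    (F.card : ℝ) * t ^ Module.finrank ℝ E ≤ N * (T + t) ^ Module.finrank ℝ E := by
  classical
  have key : ∑ x ∈ F, ∫⁻ z, indicator (ball x t) (fun _ => (1 : ENNReal)) z
      ≤ ∫⁻ z, indicator (closedBall (0 : E) (T + t)) (fun _ => (N : ENNReal)) z := by
    rw [← lintegral_finsetSum]
    · apply lintegral_mono
      intro z
      have e1 : ∑ x ∈ F, indicator (ball x t) (fun _ => (1 : ENNReal)) z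
          = ((F.filter (fun x => dist x z < t)).card : ENNReal) := by
        rw [Finset.card_filter, Nat.cast_sum]
        apply Finset.sum_congr rfl
        intro x _
        by_cases h : dist x z < t
        · have h' : z ∈ ball x t := by rwa [mem_ball, dist_comm]
          simp [indicator, h, h']
        · have h' : z ∉ ball x t := by rwa [mem_ball, dist_comm]
          simp only [indicator, h, h', if_false, Nat.cast_zero]
      simp only [e1]
      by_cases hz : z ∈ closedBall (0 : E) (T + t)
      · rw [indicator_of_mem hz]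
        have := hN z (F.filter (fun x => dist x z < t)) (Finset.filter_subset _ _)
          (fun x hx => (Finset.mem_filter.1 hx).2)
        exact_mod_cast this
      · have : F.filter (fun x => dist x z < t) = ∅ := by
          apply Finset.filter_eq_empty_iff.2
          intro x hx hxz
          apply hz
          rw [mem_closedBall_zero_iff]
          have h4 := hFT x hx
          rw [dist_eq_norm] at hxz
          calc ‖z‖ = ‖x - (x - z)‖ := by congr 1; abel
            _ ≤ ‖x‖ + ‖x - z‖ := norm_sub_le _ _
            _ ≤ T + t := by linarith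
        rw [this]; simp
    · intro x _
      exact Measurable.indicator measurable_const measurableSet_ball
  have e2 : ∀ x ∈ F, ∫⁻ z, indicator (ball x t) (fun _ => (1 : ENNReal)) z = volume (ball x t) := by
    intro x _
    rw [lintegral_indicator_const measurableSet_ball, one_mul]
  rw [Finset.sum_congr rfl e2, lintegral_indicator_const measurableSet_closedBall] at key
  have h5 := ENNReal.toReal_mono (by
    exact ENNReal.mul_ne_top (ENNReal.natCast_ne_top N) measure_closedBall_lt_top.ne) key
  rw [ENNReal.toReal_mul, ENNReal.toReal_natCast, ENNReal.toReal_sum (fun x _ =>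
    measure_ball_lt_top.ne), ← measureReal_def, vol_closedBall _ (by linarith)] at h5
  have h6 : ∀ x ∈ F, (volume (ball x t)).toReal = t ^ Module.finrank ℝ E * vb E := by
    intro x _
    rw [← measureReal_def, vol_ball _ ht]
  rw [Finset.sum_congr rfl h6, Finset.sum_const, nsmul_eq_mul] at h5
  have hv := vb_pos (E := E)
  have h7 : (F.card : ℝ) * t ^ Module.finrank ℝ E * vb E ≤
      N * (T + t) ^ Module.finrank ℝ E * vb E := by
    calc (F.card : ℝ) * t ^ Module.finrank ℝ E * vb E
        = F.card * (t ^ Module.finrank ℝ E * vb E) := by ring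
      _ ≤ N * ((T + t) ^ Module.finrank ℝ E * vb E) := h5
      _ = N * (T + t) ^ Module.finrank ℝ E * vb E := by ring
  exact le_of_mul_le_mul_right h7 hv

theorem dens_one {Y : Set E} (hY : IsPacking Y 1) {t : ℝ} (ht : 0 < t) {N : ℕ}
    (hN : ∀ (z : E) (P : Finset E), ↑P ⊆ Y → (∀ x ∈ P, dist x z < t) → P.card ≤ N) :
    upperDensity Y 1 ≤ N * (1 / t) ^ Module.finrank ℝ E := by
  set n := Module.finrank ℝ E with hn
  have hv := vb_pos (E := E)
  have h1 : ∀ᶠ R : ℝ in atTop,
      volume.real (ball (0 : E) R ∩ body Y 1) / volume.real (ball (0 : E) R)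
      ≤ N * (1 / t) ^ n * ((R + 1 + t) / R) ^ n := by
    filter_upwards [eventually_gt_atTop 0] with R hR
    have h2 := body_le hY R
    have h3 := translate_count ht (N := N) (F := (finite_inter hY (R + 1)).toFinset)
      (fun z P hP hz => hN z P (fun x hx => by
        have := hP hx
        simp only [Finite.mem_toFinset] at this
        exact this.1) hz) (T := R + 1) (by linarith)
      (fun x hx => by
        simp only [Finite.mem_toFinset, mem_inter_iff, mem_closedBall_zero_iff] at hx
        exact hx.2)
    rw [vol_ball 0 hR, div_le_iff₀ (by positivity)]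
    have h4 : ((finite_inter hY (R + 1)).toFinset.card : ℝ)
        ≤ N * (R + 1 + t) ^ n / t ^ n := by
      rw [le_div_iff₀ (by positivity)]; exact h3
    calc volume.real (ball (0 : E) R ∩ body Y 1)
        ≤ ((finite_inter hY (R + 1)).toFinset.card : ℝ) * vb E := h2
      _ ≤ (N * (R + 1 + t) ^ n / t ^ n) * vb E := mul_le_mul_of_nonneg_right h4 hv.le
      _ = N * (1 / t) ^ n * ((R + 1 + t) / R) ^ n * (R ^ n * vb E) := by
          rw [div_pow, div_pow, one_pow]; field_simp
  have h5 : Tendsto (fun R : ℝ => N * (1 / t) ^ n * ((R + 1 + t) / R) ^ n) atTop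
      (𝓝 (N * (1 / t) ^ n * 1 ^ n)) := by
    apply Tendsto.const_mul
    apply Tendsto.pow
    have : Tendsto (fun R : ℝ => 1 + (1 + t) / R) atTop (𝓝 (1 + 0)) :=
      tendsto_const_nhds.add (tendsto_const_nhds.div_atTop tendsto_id)
    rw [add_zero] at this
    refine this.congr' ?_
    filter_upwards [eventually_gt_atTop 0] with R hR
    field_simp
    ring
  rw [one_pow, mul_one] at h5
  calc upperDensity Y 1 ≤ limsup (fun R : ℝ => N * (1 / t) ^ n * ((R + 1 + t) / R) ^ n) atTop :=
        limsup_le_limsup h1 (ratio_cobdd Y 1) h5.isBoundedUnder_le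
    _ = N * (1 / t) ^ n := h5.limsup_eq

/-- **Local to global.** -/
theorem dens_of_local {Y : Set E} {r t : ℝ} (hY : IsPacking Y r) (ht : 0 < t) {N : ℕ}
    (hN : ∀ (z : E) (P : Finset E), ↑P ⊆ Y → (∀ x ∈ P, dist x z < t * r) → P.card ≤ N) :
    upperDensity Y r ≤ N * (1 / t) ^ Module.finrank ℝ E := by
  classical
  have hr := hY.1
  have h1 := isPacking_smul hY (inv_pos.2 hr)
  rw [inv_mul_cancel₀ hr.ne'] at h1
  have e1 := upperDensity_smul (X := Y) (r := r) (inv_pos.2 hr)
  rw [inv_mul_cancel₀ hr.ne'] at e1
  rw [← e1]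
  apply dens_one h1 ht
  intro z P hP hz
  have h2 := hN (r • z) (P.image (fun x => r • x)) ?_ ?_
  · rwa [Finset.card_image_of_injective _ (smul_right_injective _ hr.ne')] at h2
  · intro x hx
    simp only [Finset.coe_image, Set.mem_image] at hx
    obtain ⟨y, hy, rfl⟩ := hx
    obtain ⟨w, hw, hwy⟩ := mem_smul_set.1 (hP hy)
    rw [← hwy, smul_smul, mul_inv_cancel₀ hr.ne', one_smul]
    exact hw
  · intro x hx
    simp only [Finset.mem_image] at hx
    obtain ⟨y, hy, rfl⟩ := hx
    rw [dist_smul₀, Real.norm_of_nonneg hr.le, mul_comm]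
    exact mul_lt_mul_of_pos_right (hz y hy) hr

end

end Pool.Agent.H442FD
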