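import Pool.Agent.H442FD.Defs
import Pool.Agent.TH220.NT.Dens

/-! Integral packings with few distances (MP_dbfdb2_gt; helper442). -/

open MeasureTheory Metric Filter Set
open scoped Topology Pointwise
open Pool.Agent.H818R2 Pool.Agent.TH220.NT

namespace Pool.Agent.H442FD

section
variable {E : Type*} [NormedAddCommGroup E] [InnerProductSpace ℝ E] [FiniteDimensional ℝ E]
  [MeasurableSpace E] [BorelSpace E]

/-- A packing whose balls of radius `ρ` cover. -/
theorem cover_one {X : Set E} {ρ : ℝ} (hX : IsPacking X 1) (hρ : 0 < ρ)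
    (hc : ∀ z : E, ∃ x ∈ X, dist z x ≤ ρ) :
    (1 / ρ) ^ Module.finrank ℝ E ≤ upperDensity X 1 := by
  classical
  set n := Module.finrank ℝ E with hn
  have hv := vb_pos (E := E)
  have h1 : ∀ᶠ R : ℝ in atTop, (1 / ρ) ^ n * ((R - (ρ + 1)) / R) ^ n ≤
      volume.real (ball (0 : E) R ∩ body X 1) / volume.real (ball (0 : E) R) := by
    filter_upwards [eventually_gt_atTop (ρ + 1)] with R hR
    have hR0 : 0 < R := by linarith
    have hT : 0 < R - (ρ + 1) := by linarith
    set F := (finite_inter hX (R - 1)).toFinset with hF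
    have h2 := le_body hX (T := R - 1) (F := F)
      (by intro x hx; simp only [hF, Finite.coe_toFinset] at hx; exact hx.1)
      (by intro x hx
          simp only [hF, Finite.mem_toFinset, mem_inter_iff, mem_closedBall_zero_iff] at hx
          exact hx.2)
    rw [sub_add_cancel] at h2
    have h3 : volume.real (ball (0 : E) (R - (ρ + 1))) ≤
        volume.real (⋃ x ∈ F, closedBall x ρ) := by
      apply measureReal_mono
      · intro z hz
        obtain ⟨x, hx, hzx⟩ := hc z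
        simp only [mem_iUnion, exists_prop]
        refine ⟨x, ?_, hzx⟩
        simp only [hF, Finite.mem_toFinset, mem_inter_iff, mem_closedBall_zero_iff]
        refine ⟨hx, ?_⟩
        rw [mem_ball_zero_iff] at hz
        rw [dist_comm, dist_eq_norm] at hzx
        calc ‖x‖ = ‖z + (x - z)‖ := by congr 1; abel
          _ ≤ ‖z‖ + ‖x - z‖ := norm_add_le _ _
          _ ≤ R - 1 := by linarith
      · refine ((measure_biUnion_lt_top (Finset.finite_toSet _) ?_)).ne
        intro i _; exact measure_closedBall_lt_top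
    have h4 : volume.real (⋃ x ∈ F, closedBall x ρ) ≤ F.card * (ρ ^ n * vb E) := by
      refine (measureReal_biUnion_finset_le _ _).trans ?_
      rw [Finset.sum_congr rfl (fun x _ => vol_closedBall x hρ.le)]
      simp [hn]
    rw [vol_ball _ hT] at h3
    have h5 : (R - (ρ + 1)) ^ n ≤ F.card * ρ ^ n := by
      have h6 : (R - (ρ + 1)) ^ n * vb E ≤ (F.card * ρ ^ n) * vb E := by
        calc _ ≤ _ := h3.trans h4
          _ = _ := by ring
      exact le_of_mul_le_mul_right h6 hv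
    rw [vol_ball 0 hR0, le_div_iff₀ (by positivity)]
    calc (1 / ρ) ^ n * ((R - (ρ + 1)) / R) ^ n * (R ^ n * vb E)
        = (R - (ρ + 1)) ^ n / ρ ^ n * vb E := by
          rw [div_pow, div_pow, one_pow]; field_simp
      _ ≤ F.card * vb E := by
          apply mul_le_mul_of_nonneg_right _ hv.le
          rw [div_le_iff₀ (by positivity)]
          exact h5
      _ ≤ _ := h2
  have h5 : Tendsto (fun R : ℝ => (1 / ρ) ^ n * ((R - (ρ + 1)) / R) ^ n) atTop
      (𝓝 ((1 / ρ) ^ n * 1 ^ n)) := by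
    apply Tendsto.const_mul
    apply Tendsto.pow
    have : Tendsto (fun R : ℝ => 1 - (ρ + 1) / R) atTop (𝓝 (1 - 0)) :=
      tendsto_const_nhds.sub (tendsto_const_nhds.div_atTop tendsto_id)
    rw [sub_zero] at this
    refine this.congr' ?_
    filter_upwards [eventually_gt_atTop 0] with R hR
    field_simp
  rw [one_pow, mul_one] at h5
  calc (1 / ρ) ^ n = limsup (fun R : ℝ => (1 / ρ) ^ n * ((R - (ρ + 1)) / R) ^ n) atTop :=
        h5.limsup_eq.symm
    _ ≤ upperDensity X 1 := limsup_le_limsup h1 h5.isCoboundedUnder_le (ratio_bdd X 1)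

theorem cover_dens {X : Set E} {r ρ : ℝ} (hX : IsPacking X r) (hρ : 0 < ρ)
    (hc : ∀ z : E, ∃ x ∈ X, dist z x ≤ ρ) :
    (r / ρ) ^ Module.finrank ℝ E ≤ upperDensity X r := by
  have hr := hX.1
  have h1 := isPacking_smul hX (inv_pos.2 hr)
  rw [inv_mul_cancel₀ hr.ne'] at h1
  have e1 := upperDensity_smul (X := X) (r := r) (inv_pos.2 hr)
  rw [inv_mul_cancel₀ hr.ne'] at e1
  rw [← e1]
  have h2 := cover_one (ρ := ρ / r) h1 (by positivity) (fun z => by
    obtain ⟨x, hx, hzx⟩ := hc (r • z)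
    refine ⟨r⁻¹ • x, smul_mem_smul_set hx, ?_⟩
    have h3 : dist z (r⁻¹ • x) = r⁻¹ * dist (r • z) x := by
      have h4 : z = r⁻¹ • (r • z) := by rw [smul_smul, inv_mul_cancel₀ hr.ne', one_smul]
      conv_lhs => rw [h4]
      rw [dist_smul₀, Real.norm_of_nonneg (inv_nonneg.2 hr.le)]
    rw [h3, div_eq_inv_mul]
    exact mul_le_mul_of_nonneg_left hzx (inv_nonneg.2 hr.le))
  rwa [one_div_div] at h2

end

/-- integral points -/
def intPts (n : ℕ) : Set (EuclideanSpace ℝ (Fin n)) := {x | ∀ i, ∃ m : ℤ, x i = m}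

theorem near_int {n : ℕ} (z : EuclideanSpace ℝ (Fin n)) :
    ∃ x ∈ intPts n, dist z x ≤ √n / 2 := by
  refine ⟨WithLp.toLp 2 fun i => ((round (z i) : ℤ) : ℝ), fun i => ⟨round (z i), rfl⟩, ?_⟩
  rw [EuclideanSpace.dist_eq]
  have h1 : ∑ i, dist (z i) ((round (z i) : ℤ) : ℝ) ^ 2 ≤ ∑ _i : Fin n, (1 / 4 : ℝ) := by
    apply Finset.sum_le_sum
    intro i _
    rw [Real.dist_eq, sq_abs]
    have h2 := abs_sub_round (z i)
    rw [← sq_abs]
    nlinarith [abs_nonneg (z i - round (z i))]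
  rw [Finset.sum_const, Finset.card_univ, Fintype.card_fin, nsmul_eq_mul] at h1
  have h3 : √n / 2 = √(n * (1 / 4)) := by
    rw [Real.sqrt_mul (Nat.cast_nonneg _)]
    have : √(1 / 4 : ℝ) = 1 / 2 := by
      rw [show (1 / 4 : ℝ) = (1 / 2) ^ 2 by norm_num, Real.sqrt_sq (by norm_num)]
    rw [this]; ring
  rw [h3]
  exact Real.sqrt_le_sqrt h1

theorem dist_sq_int {n : ℕ} {x y : EuclideanSpace ℝ (Fin n)} (hx : x ∈ intPts n)
    (hy : y ∈ intPts n) : ∃ m : ℕ, dist x y ^ 2 = m := by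
  choose a ha using hx
  choose b hb using hy
  refine ⟨(∑ i, (a i - b i) ^ 2).toNat, ?_⟩
  have h0 : 0 ≤ ∑ i, (a i - b i) ^ 2 := Finset.sum_nonneg fun i _ => sq_nonneg _
  have h1 : (((∑ i, (a i - b i) ^ 2).toNat : ℤ) : ℝ) = ((∑ i, (a i - b i) ^ 2 : ℤ) : ℝ) := by
    rw [Int.toNat_of_nonneg h0]
  rw [← Int.cast_natCast, h1, EuclideanSpace.dist_eq, Real.sq_sqrt (Finset.sum_nonneg
    fun i _ => sq_nonneg _)]
  push_cast
  refine Finset.sum_congr rfl fun i _ => ?_
  rw [Real.dist_eq, sq_abs, ha i, hb i]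

/-- **Integral packings.** -/
theorem integral_packing {n : ℕ} (hn : 1 ≤ n) {K : ℕ} (hK : 1 ≤ K) (t : ℝ) :
    ∃ (X : Set (EuclideanSpace ℝ (Fin n))) (r : ℝ), IsPacking X r ∧
      fewDist X r t (⌈t ^ 2⌉₊ * K * n) = X ∧
      (1 / (2 + 1 / √K)) ^ n ≤ upperDensity X r := by
  set m : ℝ := √(K * n) with hm
  have hKn : (0 : ℝ) < K * n := by
    have h1 : (0 : ℝ) < K := by exact_mod_cast hK
    have h2 : (0 : ℝ) < n := by exact_mod_cast hn
    positivity
  have hm0 : 0 < m := Real.sqrt_pos.2 hKn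
  have hm2 : m ^ 2 = K * n := Real.sq_sqrt hKn.le
  obtain ⟨X, hXI, hX1, hX2⟩ := exists_indep (intPts n) (fun x y => dist x y < m)
    (fun x y h => by rwa [dist_comm])
  have hpack : IsPacking X (m / 2) := by
    refine ⟨by positivity, ?_⟩
    intro x hx y hy hxy
    simp only [Function.onFun]
    rw [disjoint_ball_ball_iff (by positivity) (by positivity)]
    have := not_lt.1 (hX1 x hx y hy hxy)
    linarith
  refine ⟨X, m / 2, hpack, ?_, ?_⟩
  · apply Subset.antisymm (fun x hx => hx.1)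
    intro x hx
    refine ⟨hx, ?_⟩
    have h1 : {d | ∃ y ∈ X, y ≠ x ∧ dist x y = d ∧ d < 2 * t * (m / 2)} ⊆
        ((Finset.range (⌈t ^ 2⌉₊ * K * n)).image fun j : ℕ => √(j : ℝ) : Finset ℝ) := by
      rintro d ⟨y, hy, -, rfl, hd⟩
      obtain ⟨j, hj⟩ := dist_sq_int (hXI hx) (hXI hy)
      rw [Finset.coe_image, Set.mem_image]
      refine ⟨j, ?_, ?_⟩
      · rw [Finset.mem_coe, Finset.mem_range]
        have h2 : dist x y < t * m := by linarith
        have h3 : (j : ℝ) < t ^ 2 * (K * n) := by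
          rw [← hj, ← hm2, ← mul_pow]
          exact pow_lt_pow_left₀ h2 dist_nonneg (by norm_num)
        have h4 : t ^ 2 * (K * n) ≤ (⌈t ^ 2⌉₊ : ℝ) * (K * n) :=
          mul_le_mul_of_nonneg_right (Nat.le_ceil _) hKn.le
        have h5 : (j : ℝ) < ((⌈t ^ 2⌉₊ * K * n : ℕ) : ℝ) := by
          push_cast
          linarith
        exact_mod_cast h5
      · rw [← hj, Real.sqrt_sq dist_nonneg]
    refine (Set.encard_le_encard h1).trans ?_
    rw [Set.encard_coe_eq_coe_finsetCard]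
    have h2 : ((Finset.range (⌈t ^ 2⌉₊ * K * n)).image fun j : ℕ => √(j : ℝ)).card ≤
        ⌈t ^ 2⌉₊ * K * n := Finset.card_image_le.trans (by rw [Finset.card_range])
    exact_mod_cast h2
  · have hρ : ∀ z : EuclideanSpace ℝ (Fin n), ∃ x ∈ X, dist z x ≤ m + √n / 2 := by
      intro z
      obtain ⟨w, hw, hzw⟩ := near_int z
      rcases hX2 w hw with h | ⟨x, hx, hxw⟩
      · exact ⟨w, h, by linarith⟩
      · refine ⟨x, hx, ?_⟩
        rw [dist_comm] at hxw
        linarith [dist_triangle z w x]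
    have h1 := cover_dens hpack (by positivity) hρ
    simp only [finrank_euclideanSpace, Fintype.card_fin] at h1
    have hK0 : (0 : ℝ) < √K := Real.sqrt_pos.2 (by exact_mod_cast hK)
    have hn0 : (0 : ℝ) < √n := Real.sqrt_pos.2 (by exact_mod_cast hn)
    have h2 : m / 2 / (m + √n / 2) = 1 / (2 + 1 / √K) := by
      rw [hm, Real.sqrt_mul (Nat.cast_nonneg _)]
      field_simp
    rwa [h2] at h1

theorem sharp (t : ℝ) {δ : ℝ} (hδ : 0 < δ) : ∃ C : ℕ, ∀ n : ℕ, 1 ≤ n →
    ∃ (X : Set (EuclideanSpace ℝ (Fin n))) (r : ℝ), IsPacking X r ∧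
      fewDist X r t (C * n) = X ∧ ((2 : ℝ) ^ (-(1 + δ))) ^ n ≤ upperDensity X r := by
  have h1 : Tendsto (fun K : ℕ => 1 / (2 + 1 / √(K : ℝ))) atTop (𝓝 (1 / (2 + 0))) := by
    apply Tendsto.div tendsto_const_nhds _ (by norm_num)
    apply Tendsto.add tendsto_const_nhds
    exact tendsto_const_nhds.div_atTop
      (Real.tendsto_sqrt_atTop.comp tendsto_natCast_atTop_atTop)
  have h2 : (2 : ℝ) ^ (-(1 + δ)) < 1 / (2 + 0) := by
    rw [add_zero, neg_add, Real.rpow_add (by norm_num), Real.rpow_neg_one, one_div]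
    have h3 : (2 : ℝ) ^ (-δ) < 1 := Real.rpow_lt_one_of_one_lt_of_neg (by norm_num) (by linarith)
    nlinarith
  obtain ⟨K, hK1, hK⟩ := ((h1.eventually (lt_mem_nhds h2)).and (eventually_ge_atTop 1)).exists
  refine ⟨⌈t ^ 2⌉₊ * K, ?_⟩
  intro n hn
  obtain ⟨X, r, hX, hf, hd⟩ := integral_packing hn hK t
  exact ⟨X, r, hX, hf, (pow_le_pow_left₀ (by positivity) hK1.le n).trans hd⟩

end Pool.Agent.H442FD
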