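import Pool.Agent.H442FD.Rank

/-! The space of polynomials of degree `≤ m` in `(y, ‖y‖²)` (MP_dbfdb2_gt; helper442). -/

open Finset

namespace Pool.Agent.H442FD

variable {n : ℕ}

/-- The coordinates `(y, 1, ‖y‖²)`. -/
noncomputable def zc (y : EuclideanSpace ℝ (Fin n)) : Fin n ⊕ Bool → ℝ
  | .inl i => y i
  | .inr false => 1
  | .inr true => ‖y‖ ^ 2

/-- The monomials of degree `m` in the coordinates, on a family of points. -/
noncomputable def mono {ι : Type*} (p : ι → EuclideanSpace ℝ (Fin n)) (m : ℕ)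
    (σ : Sym (Fin n ⊕ Bool) m) : EuclideanSpace ℝ ι :=
  WithLp.toLp 2 fun y => ((σ : Multiset (Fin n ⊕ Bool)).map (zc (p y))).prod

/-- The space spanned by the monomials of degree `m`. -/
noncomputable def polySp {ι : Type*} (p : ι → EuclideanSpace ℝ (Fin n)) (m : ℕ) :
    Submodule ℝ (EuclideanSpace ℝ ι) := Submodule.span ℝ (Set.range (mono p m))

theorem finrank_polySp {ι : Type*} (p : ι → EuclideanSpace ℝ (Fin n)) (m : ℕ) :
    Module.finrank ℝ (polySp p m) ≤ (n + m + 1).choose m := by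
  classical
  have h := finrank_range_le_card (R := ℝ) (mono p m)
  rw [Sym.card_sym_eq_choose] at h
  have h2 : Fintype.card (Fin n ⊕ Bool) + m - 1 = n + m + 1 := by
    simp only [Fintype.card_sum, Fintype.card_fin, Fintype.card_bool]
    omega
  rw [h2] at h
  exact h

theorem prod_mem {ι : Type*} (p : ι → EuclideanSpace ℝ (Fin n)) {J : Type*} [Fintype J] {m : ℕ}
    (hm : Fintype.card J = m) (c : J → Fin n ⊕ Bool → ℝ) :
    (WithLp.toLp 2 fun y => ∏ j, ∑ a, c j a * zc (p y) a : EuclideanSpace ℝ ι) ∈ polySp p m := by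
  classical
  have h : (WithLp.toLp 2 fun y => ∏ j, ∑ a, c j a * zc (p y) a : EuclideanSpace ℝ ι)
      = ∑ φ : J → Fin n ⊕ Bool, (∏ j, c j (φ j)) •
        mono p m ⟨Finset.univ.val.map φ, by rw [Multiset.card_map]; exact hm⟩ := by
    ext y
    simp only [mono, WithLp.ofLp_sum, WithLp.ofLp_smul, Finset.sum_apply, Pi.smul_apply,
      smul_eq_mul]
    rw [Finset.prod_univ_sum]
    simp only [Fintype.piFinset_univ]
    refine Finset.sum_congr rfl fun φ _ => ?_
    rw [Finset.prod_mul_distrib]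
    congr 1
    rw [Sym.coe_mk, Multiset.map_map]
    rfl
  rw [h]
  exact Submodule.sum_mem _ fun φ _ => Submodule.smul_mem _ _ (Submodule.subset_span ⟨_, rfl⟩)

/-- The coefficients of `1 - ‖x - y‖² / a²`. -/
noncomputable def coef (x : EuclideanSpace ℝ (Fin n)) (a : ℝ) : Fin n ⊕ Bool → ℝ
  | .inl i => 2 * x i / a ^ 2
  | .inr false => 1 - ‖x‖ ^ 2 / a ^ 2
  | .inr true => -1 / a ^ 2

theorem coef_sum (x y : EuclideanSpace ℝ (Fin n)) (a : ℝ) :
    ∑ i, coef x a i * zc y i = 1 - dist x y ^ 2 / a ^ 2 := by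
  rw [Fintype.sum_sum_type]
  simp only [Fintype.sum_bool, coef, zc]
  have h1 : dist x y ^ 2 = ‖x‖ ^ 2 - 2 * ∑ i, x i * y i + ‖y‖ ^ 2 := by
    rw [dist_eq_norm, norm_sub_sq_real]
    congr 2
    simp only [PiLp.inner_apply, RCLike.inner_apply, conj_trivial]
    congr 1
    exact Finset.sum_congr rfl fun i _ => mul_comm _ _
  rw [h1]
  have h2 : ∑ i, 2 * x i / a ^ 2 * y i = 2 * (∑ i, x i * y i) / a ^ 2 := by
    rw [Finset.mul_sum, Finset.sum_div]
    exact Finset.sum_congr rfl fun i _ => by ring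
  rw [h2]
  ring

/-- the separating polynomial -/
noncomputable def sepF {ι : Type*} (p : ι → EuclideanSpace ℝ (Fin n)) {s : ℕ} (k : ℕ)
    (a : ι → Fin s → ℝ) (x : ι) : EuclideanSpace ℝ ι :=
  WithLp.toLp 2 fun y => ∏ j : Fin s × Fin k, ∑ b, coef (p x) (a x j.1) b * zc (p y) b

theorem sepF_mem {ι : Type*} (p : ι → EuclideanSpace ℝ (Fin n)) {s : ℕ} (k : ℕ)
    (a : ι → Fin s → ℝ) (x : ι) : sepF p k a x ∈ polySp p (s * k) := by
  have hc : Fintype.card (Fin s × Fin k) = s * k := by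
    rw [Fintype.card_prod, Fintype.card_fin, Fintype.card_fin]
  have h := prod_mem (J := Fin s × Fin k) (m := s * k) p hc fun j => coef (p x) (a x j.1)
  unfold sepF
  exact h

theorem sepF_apply {ι : Type*} (p : ι → EuclideanSpace ℝ (Fin n)) {s : ℕ} (k : ℕ)
    (a : ι → Fin s → ℝ) (x y : ι) :
    sepF p k a x y = (∏ i : Fin s, (1 - dist (p x) (p y) ^ 2 / a x i ^ 2)) ^ k := by
  have h : sepF p k a x y = ∏ j : Fin s × Fin k, (1 - dist (p x) (p y) ^ 2 / a x j.1 ^ 2) := by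
    unfold sepF
    exact Finset.prod_congr rfl fun j _ => coef_sum _ _ _
  rw [h, Fintype.prod_prod_type, ← Finset.prod_pow]
  simp only [Finset.prod_const, Finset.card_univ, Fintype.card_fin]

theorem window_bound {s : ℕ} {t ε r d : ℝ} (ht : 1 ≤ t) (hε : 0 ≤ ε) (hr : 0 < r)
    (a : Fin s → ℝ) (ha : ∀ i, 2 * r ≤ a i) (hd0 : 0 ≤ d) (hd : d < 2 * t * r)
    (hi : ∃ i, a i ≤ d ∧ d ≤ (1 + ε) * a i) :
    |∏ i : Fin s, (1 - d ^ 2 / a i ^ 2)| ≤ ((1 + ε) ^ 2 - 1) * t ^ (2 * (s - 1)) := by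
  obtain ⟨i, hi1, hi2⟩ := hi
  have hai : ∀ j, 0 < a j := fun j => by
    have := ha j
    linarith
  have hall : ∀ j, |1 - d ^ 2 / a j ^ 2| ≤ t ^ 2 := by
    intro j
    have h2 : d / a j ≤ t := by
      rw [div_le_iff₀ (hai j)]
      have h3 := ha j
      calc d ≤ t * (2 * r) := by linarith
        _ ≤ t * a j := mul_le_mul_of_nonneg_left h3 (by linarith)
    have h3 : 0 ≤ d / a j := div_nonneg hd0 (hai j).le
    rw [← div_pow, abs_le]
    constructor <;> nlinarith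
  have hone : |1 - d ^ 2 / a i ^ 2| ≤ (1 + ε) ^ 2 - 1 := by
    have h2 : 1 ≤ d / a i := by
      rw [le_div_iff₀ (hai i)]
      linarith
    have h3 : d / a i ≤ 1 + ε := by
      rw [div_le_iff₀ (hai i)]
      exact hi2
    rw [← div_pow, abs_le]
    constructor <;> nlinarith
  rw [Finset.abs_prod, ← Finset.mul_prod_erase _ _ (Finset.mem_univ i)]
  have h4 : ∏ j ∈ Finset.univ.erase i, |1 - d ^ 2 / a j ^ 2| ≤
      ∏ _j ∈ Finset.univ.erase i, t ^ 2 :=
    Finset.prod_le_prod (fun j _ => abs_nonneg _) fun j _ => hall j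
  rw [Finset.prod_const, Finset.card_erase_of_mem (Finset.mem_univ i), Finset.card_univ,
    Fintype.card_fin, ← pow_mul] at h4
  exact mul_le_mul hone h4 (Finset.prod_nonneg fun j _ => abs_nonneg _)
    ((abs_nonneg _).trans hone)

/-- **Local bound.** Points of a finite set such that for each point `x` all distances to the other
points lie in `s` windows `[a_i, (1 + ε) a_i]`. -/
theorem local_card {P : Finset (EuclideanSpace ℝ (Fin n))} {s k : ℕ} {r t ε : ℝ} (hr : 0 < r)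
    (ht : 1 ≤ t) (hε : 0 ≤ ε)
    (hP : ∀ x ∈ P, ∃ a : Fin s → ℝ, (∀ i, 2 * r ≤ a i) ∧ ∀ y ∈ P, x ≠ y →
      dist x y < 2 * t * r ∧ ∃ i, a i ≤ dist x y ∧ dist x y ≤ (1 + ε) * a i)
    (hne : P.Nonempty) :
    (P.card : ℝ) ≤ ((n + s * k + 1).choose (s * k) : ℕ) *
      (1 + (P.card - 1) * ((((1 + ε) ^ 2 - 1) * t ^ (2 * (s - 1))) ^ k) ^ 2) := by
  classical
  choose! a ha1 ha2 using hP
  have h1 : ∀ x : P, sepF (fun x : P => x.1) k (fun x : P => a x.1) x x = 1 := by
    intro x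
    rw [sepF_apply]
    simp
  have hq : ∀ x y : P, x ≠ y → |sepF (fun x : P => x.1) k (fun x : P => a x.1) x y| ≤
      (((1 + ε) ^ 2 - 1) * t ^ (2 * (s - 1))) ^ k := by
    intro x y hxy
    rw [sepF_apply, abs_pow]
    apply pow_le_pow_left₀ (abs_nonneg _)
    have hxy' : (x : EuclideanSpace ℝ (Fin n)) ≠ y := fun h => hxy (Subtype.ext h)
    obtain ⟨hd, hi⟩ := ha2 x.1 x.2 y.1 y.2 hxy'
    exact window_bound ht hε hr (a x.1) (ha1 x.1 x.2) dist_nonneg hd hi
  have h5 := card_le_of_near (polySp (fun x : P => x.1) (s * k)) (finrank_polySp _ (s * k))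
    (sepF (fun x : P => x.1) k (fun x : P => a x.1)) (fun x => sepF_mem _ k _ x) h1 hq
    (by rw [Fintype.card_coe]; exact hne.card_pos)
  rw [Fintype.card_coe] at h5
  exact h5

end Pool.Agent.H442FD
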