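import Mathlib

/-! Rank bounds for the polynomial method (MP_dbfdb2_gt, few distances; helper442). -/

open Finset

namespace Pool.Agent.H442FD

/-- If the vectors `a x` of `ℝ^ι` lie in a subspace of dimension at most `D`, then
`(∑ a_x(x))² ≤ D ∑ ‖a_x‖²`. -/
theorem trace_sq_le {ι : Type*} [Fintype ι] {D : ℕ} (V : Submodule ℝ (EuclideanSpace ℝ ι))
    (hV : Module.finrank ℝ V ≤ D) (a : ι → EuclideanSpace ℝ ι) (ha : ∀ x, a x ∈ V) :
    (∑ x, a x x) ^ 2 ≤ D * ∑ x, ‖a x‖ ^ 2 := by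
  classical
  set b := stdOrthonormalBasis ℝ V with hb
  have h1 : ∀ x, a x x = ∑ j, inner ℝ (b j) (⟨a x, ha x⟩ : V) * (b j : EuclideanSpace ℝ ι) x := by
    intro x
    have h := b.sum_repr' (⟨a x, ha x⟩ : V)
    have h2 := congrArg (fun v : V => (v : EuclideanSpace ℝ ι) x) h
    simp only [Submodule.coe_sum, Submodule.coe_smul, WithLp.ofLp_sum, WithLp.ofLp_smul,
      Finset.sum_apply, Pi.smul_apply, smul_eq_mul] at h2
    exact h2.symm
  have h2 : ∀ x, ∑ j, inner ℝ (b j) (⟨a x, ha x⟩ : V) ^ 2 = ‖a x‖ ^ 2 := by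
    intro x
    have := b.sum_sq_norm_inner_right (⟨a x, ha x⟩ : V)
    simp only [Real.norm_eq_abs, sq_abs] at this
    rw [this]
    rfl
  have h3 : ∀ j, ∑ x, (b j : EuclideanSpace ℝ ι) x ^ 2 = 1 := by
    intro j
    have h4 : ‖(b j : EuclideanSpace ℝ ι)‖ = 1 := by
      exact b.orthonormal.1 j
    have h5 := EuclideanSpace.norm_sq_eq (b j : EuclideanSpace ℝ ι)
    rw [h4] at h5
    simp only [Real.norm_eq_abs, sq_abs] at h5
    linarith
  calc (∑ x, a x x) ^ 2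
      = (∑ p : ι × Fin (Module.finrank ℝ V), inner ℝ (b p.2) (⟨a p.1, ha p.1⟩ : V) *
          (b p.2 : EuclideanSpace ℝ ι) p.1) ^ 2 := by
        rw [Fintype.sum_prod_type]
        congr 1
        exact Finset.sum_congr rfl fun x _ => h1 x
    _ ≤ (∑ p : ι × Fin (Module.finrank ℝ V), inner ℝ (b p.2) (⟨a p.1, ha p.1⟩ : V) ^ 2) *
          ∑ p : ι × Fin (Module.finrank ℝ V), (b p.2 : EuclideanSpace ℝ ι) p.1 ^ 2 :=
        Finset.sum_mul_sq_le_sq_mul_sq _ _ _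
    _ = (∑ x, ‖a x‖ ^ 2) * (Module.finrank ℝ V : ℝ) := by
        rw [Fintype.sum_prod_type, Fintype.sum_prod_type_right]
        simp only
        rw [Finset.sum_congr rfl fun x _ => h2 x, Finset.sum_congr rfl fun j _ => h3 j]
        simp
    _ ≤ (∑ x, ‖a x‖ ^ 2) * (D : ℝ) := by
        apply mul_le_mul_of_nonneg_left _ (Finset.sum_nonneg fun x _ => by positivity)
        exact_mod_cast hV
    _ = D * ∑ x, ‖a x‖ ^ 2 := mul_comm _ _

/-- Vectors in a space of dimension at most `D` with `a_x(x) = 1` and `|a_x(y)| ≤ q` otherwise. -/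
theorem card_le_of_near {ι : Type*} [Fintype ι] [DecidableEq ι] {D : ℕ}
    (V : Submodule ℝ (EuclideanSpace ℝ ι))
    (hV : Module.finrank ℝ V ≤ D) (a : ι → EuclideanSpace ℝ ι) (ha : ∀ x, a x ∈ V)
    (h1 : ∀ x, a x x = 1) {q : ℝ} (hq : ∀ x y, x ≠ y → |a x y| ≤ q) (hN : 0 < Fintype.card ι) :
    (Fintype.card ι : ℝ) ≤ D * (1 + (Fintype.card ι - 1) * q ^ 2) := by
  set N := Fintype.card ι with hNdef
  have hN' : (0 : ℝ) < N := by exact_mod_cast hN
  have hn : ∀ x, ‖a x‖ ^ 2 ≤ 1 + (N - 1) * q ^ 2 := by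
    intro x
    rw [EuclideanSpace.norm_sq_eq, ← Finset.add_sum_erase _ _ (Finset.mem_univ x)]
    simp only [Real.norm_eq_abs, sq_abs]
    rw [h1 x]
    have h2 : ∑ y ∈ Finset.univ.erase x, a x y ^ 2 ≤ ∑ y ∈ Finset.univ.erase x, q ^ 2 := by
      apply Finset.sum_le_sum
      intro y hy
      rw [← sq_abs]
      exact pow_le_pow_left₀ (abs_nonneg _) (hq x y (Finset.ne_of_mem_erase hy).symm) 2
    rw [Finset.sum_const, Finset.card_erase_of_mem (Finset.mem_univ x), Finset.card_univ,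
      nsmul_eq_mul, Nat.cast_sub (by omega)] at h2
    simp only [Nat.cast_one, one_pow] at h2 ⊢
    linarith
  have h3 := trace_sq_le V hV a ha
  simp only [h1, Finset.sum_const, Finset.card_univ, nsmul_eq_mul, mul_one] at h3
  have h4 : ∑ x, ‖a x‖ ^ 2 ≤ N * (1 + (N - 1) * q ^ 2) := by
    calc ∑ x, ‖a x‖ ^ 2 ≤ ∑ _x : ι, (1 + ((N : ℝ) - 1) * q ^ 2) := Finset.sum_le_sum fun x _ => hn x
      _ = N * (1 + (N - 1) * q ^ 2) := by
        rw [Finset.sum_const, Finset.card_univ, nsmul_eq_mul]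
  have h5 : (N : ℝ) ^ 2 ≤ D * (N * (1 + (N - 1) * q ^ 2)) :=
    h3.trans (mul_le_mul_of_nonneg_left h4 (Nat.cast_nonneg _))
  have h6 : (N : ℝ) * N ≤ N * (D * (1 + (N - 1) * q ^ 2)) := by nlinarith
  exact le_of_mul_le_mul_left h6 hN'

end Pool.Agent.H442FD
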