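import Pool.Agent.H442FD.Defs
import Pool.Agent.H442FD.Poly
import Pool.Agent.H442FD.Loc

/-! The density bounds (MP_dbfdb2_gt; helper442). -/

open Metric Filter Set
open Pool.Agent.H818R2 Pool.Agent.TH220.NT

namespace Pool.Agent.H442FD

variable {n : ℕ}

theorem sep_gen {X : Set (EuclideanSpace ℝ (Fin n))} {r : ℝ} (hX : IsPacking X r)
    {x y : EuclideanSpace ℝ (Fin n)} (hx : x ∈ X) (hy : y ∈ X) (hxy : x ≠ y) :
    2 * r ≤ dist x y := by
  have h := hX.2 hx hy hxy
  simp only [Function.onFun] at h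
  rw [disjoint_ball_ball_iff hX.1 hX.1] at h
  linarith

theorem sub_packing {X Y : Set (EuclideanSpace ℝ (Fin n))} {r : ℝ} (hX : IsPacking X r)
    (h : Y ⊆ X) : IsPacking Y r := ⟨hX.1, hX.2.subset h⟩

theorem local_bound {X : Set (EuclideanSpace ℝ (Fin n))} {r t ε : ℝ} {s k : ℕ}
    (hX : IsPacking X r) (ht : 1 ≤ t) (hε : 0 ≤ ε) (z : EuclideanSpace ℝ (Fin n))
    (P : Finset (EuclideanSpace ℝ (Fin n))) (hP : ↑P ⊆ fewWindows X r t s ε)
    (hz : ∀ x ∈ P, dist x z < t * r) (hne : P.Nonempty) :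
    (P.card : ℝ) ≤ ((n + s * k + 1).choose (s * k) : ℕ) *
      (1 + (P.card - 1) * ((((1 + ε) ^ 2 - 1) * t ^ (2 * (s - 1))) ^ k) ^ 2) := by
  apply local_card hX.1 ht hε _ hne
  intro x hx
  obtain ⟨hxX, a, ha⟩ := hP hx
  refine ⟨fun i => max (a i) (2 * r), fun i => le_max_right _ _, ?_⟩
  intro y hy hxy
  have hyX := (hP hy).1
  have h1 : dist x y < 2 * t * r := by
    have h2 := hz x hx
    have h3 := hz y hy
    have h4 := dist_triangle_right x y z
    linarith
  refine ⟨h1, ?_⟩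
  obtain ⟨i, hi1, hi2⟩ := ha y hyX hxy.symm h1
  refine ⟨i, max_le hi1 (sep_gen hX hxX hyX hxy), hi2.trans ?_⟩
  exact mul_le_mul_of_nonneg_left (le_max_left _ _) (by linarith)

theorem windows_dens {X : Set (EuclideanSpace ℝ (Fin n))} {r t ε : ℝ} {s k : ℕ}
    (hX : IsPacking X r) (ht : 1 ≤ t) (hε : 0 ≤ ε)
    (hk : 2 * ((n + s * k + 1).choose (s * k) : ℝ) *
      (((1 + ε) ^ 2 - 1) * t ^ (2 * (s - 1))) ^ (2 * k) ≤ 1) :
    upperDensity (fewWindows X r t s ε) r ≤
      2 * ((n + s * k + 1).choose (s * k) : ℝ) * (1 / t) ^ n := by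
  classical
  set D := (n + s * k + 1).choose (s * k) with hD
  have h := dens_of_local (Y := fewWindows X r t s ε) (t := t) (N := 2 * D)
    (sub_packing hX fun x hx => hx.1) (by linarith) ?_
  · simp only [finrank_euclideanSpace, Fintype.card_fin] at h
    push_cast at h
    exact h
  · intro z P hP hz
    by_contra hcon
    push Not at hcon
    obtain ⟨Q, hQP, hQ⟩ := Finset.exists_subset_card_eq (show 2 * D + 1 ≤ P.card by omega)
    have hne : Q.Nonempty := by
      rw [← Finset.card_pos]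
      omega
    have h2 := local_bound (k := k) hX ht hε z Q (fun x hx => hP (hQP hx))
      (fun x hx => hz x (hQP hx)) hne
    rw [hQ, ← pow_mul, mul_comm k 2] at h2
    push_cast at h2
    set q := (((1 + ε) ^ 2 - 1) * t ^ (2 * (s - 1))) ^ (2 * k) with hq
    have hD0 : (0 : ℝ) ≤ D := Nat.cast_nonneg _
    have h3 : (D : ℝ) * (1 + (2 * D + 1 - 1) * q) ≤ 2 * D := by nlinarith
    linarith

theorem exists_enum {D : Set ℝ} {s : ℕ} (h : D.encard ≤ s) :
    ∃ a : Fin s → ℝ, ∀ d ∈ D, ∃ i, a i = d := by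
  classical
  have hfin : D.Finite := Set.finite_of_encard_le_coe h
  have hc : hfin.toFinset.card ≤ s := by
    rw [hfin.encard_eq_coe_toFinset_card] at h
    exact_mod_cast h
  refine ⟨fun i => (hfin.toFinset.toList)[i.1]?.getD 0, ?_⟩
  intro d hd
  have hd' : d ∈ hfin.toFinset.toList := by
    rw [Finset.mem_toList]
    exact hfin.mem_toFinset.2 hd
  obtain ⟨i, hi, hid⟩ := List.getElem_of_mem hd'
  have hi' : i < s := by
    rw [Finset.length_toList] at hi
    omega
  refine ⟨⟨i, hi'⟩, ?_⟩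
  simp only [List.getElem?_eq_getElem hi, Option.getD_some, hid]

theorem few_sub {X : Set (EuclideanSpace ℝ (Fin n))} {r t : ℝ} {s : ℕ} :
    fewDist X r t s ⊆ fewWindows X r t s 0 := by
  rintro x ⟨hx, h⟩
  obtain ⟨a, ha⟩ := exists_enum h
  refine ⟨hx, a, ?_⟩
  intro y hy hyx hd
  obtain ⟨i, hi⟩ := ha (dist x y) ⟨y, hy, hyx, rfl, hd⟩
  exact ⟨i, hi.le, by rw [add_zero, one_mul]; exact hi.ge⟩

theorem few_dens {X : Set (EuclideanSpace ℝ (Fin n))} {r t : ℝ} {s : ℕ}
    (hX : IsPacking X r) (ht : 1 ≤ t) :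
    upperDensity (fewDist X r t s) r ≤ ((n + s + 1).choose s : ℝ) * (1 / t) ^ n := by
  classical
  have h := dens_of_local (Y := fewDist X r t s) (t := t) (N := (n + s + 1).choose s)
    (sub_packing hX fun x hx => hx.1) (by linarith) ?_
  · simp only [finrank_euclideanSpace, Fintype.card_fin] at h
    exact h
  · intro z P hP hz
    rcases P.eq_empty_or_nonempty with h0 | hne
    · rw [h0]; simp
    have h2 := local_bound (k := 1) hX ht le_rfl z P (fun x hx => few_sub (hP hx)) hz hne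
    simp only [add_zero, one_pow, sub_self, zero_mul, ne_eq, one_ne_zero, not_false_eq_true,
      zero_pow, OfNat.ofNat_ne_zero, mul_zero, mul_one] at h2
    exact_mod_cast h2

end Pool.Agent.H442FD
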